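import Pool.Agent.Q142.SIC.FactorParity

/-!
# MP_1c78a5_mp: Weyl-Heisenberg SIC fiducials with a parity symmetry on one tensor factor

Let `d = u v` with `u, v` coprime and `v > 1` odd, and let `e = 1` modulo `u` and `e = -1` modulo `v`.
If a fiducial vector `ψ` satisfies `ψ (e r) = c ψ (r)` for all `r`, then `d + 1 = M²` is a square,
`M ≤ v + 1` if `c = 1`, `M ≤ v - 1` if `c = -1` (there are no other `c`), and if `v` is a prime power
then `v = u + 2`, or `c = 1` and `v = u - 2`.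
-/

set_option autoImplicit false

namespace Pool.Agent.Results.MP_1c78a5_mp.FactorParity

open Pool.Agent.Q142.SIC (displace overlap IsFiducial)

theorem result : ∀ (u v : ℕ) [NeZero u] [NeZero v], Nat.Coprime u v → 1 < v → Odd v →
    ∀ ψ : ZMod (u * v) → ℂ, IsFiducial ψ →
    ∀ (e : ℤ) (c : ℂ), (e : ZMod u) = 1 → (e : ZMod v) = -1 →
    (∀ r : ZMod (u * v), ψ ((e : ZMod (u * v)) * r) = c * ψ r) →
    (∃ M : ℕ, M ^ 2 = u * v + 1 ∧ ((c = 1 ∧ M ≤ v + 1) ∨ (c = -1 ∧ M + 1 ≤ v))) ∧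
      (IsPrimePow v → u + 2 = v ∨ (c = 1 ∧ u = v + 2)) := by
  intro u v _ _ h hv1 hodd ψ hψ e c heu hev hc
  exact Pool.Agent.Q142.SIC.factor_parity' h hv1 hodd hψ heu hev hc

end Pool.Agent.Results.MP_1c78a5_mp.FactorParity
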