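import Pool.Agent.Q142.SIC.Parity

/-!
# MP_1c78a5_mp: Weyl-Heisenberg SIC fiducials have no parity symmetry in dimensions larger than 3

Let `d > 3` and let `ψ` be a fiducial vector. Then `ψ` is not an eigenvector of any of the displaced
parity operators `X^a Z^b P`, where `(P ψ)(r) = ψ (-r)`.

Sketch of the proof: for a parity symmetric fiducial vector the overlaps are signs, up to
`2d`-th roots of unity and the factor `1/√(d+1)`, and `d + 1` is a square. If `d = u v` with `u, v`
coprime, the automorphism of the cyclotomic field that fixes the `u`-part and inverts the `v`-part of
the roots of unity turns the Gram matrix of `ψ` into its transpose on the second tensor factor; hence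
the latter has rank one and `ψ` is a product vector, which no fiducial vector is. In the only
remaining dimension, 8, the sequence of eight signs with flat twisted autocorrelation does not exist.
-/

set_option autoImplicit false

namespace Pool.Agent.Results.MP_1c78a5_mp.NoParitySymmetry

open Pool.Agent.Q142.SIC (displace overlap IsFiducial)

theorem result : ∀ (d : ℕ) [NeZero d], 3 < d → ∀ ψ : ZMod d → ℂ, IsFiducial ψ →
    ∀ (a b : ZMod d) (c : ℂ), displace a b (fun r => ψ (-r)) ≠ fun r => c * ψ r := by
  intro d _ hd ψ hψ a b c
  exact Pool.Agent.Q142.SIC.no_displaced_parity hd hψ a b c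

end Pool.Agent.Results.MP_1c78a5_mp.NoParitySymmetry
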