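import Pool.Agent.Q142.SIC.Prime

/-!
# MP_1c78a5_mp: approximate Weyl-Heisenberg SIC fiducials in all prime dimensions

For every prime `p ≥ 5` there is a unit vector in `ℂ^p` all of whose nontrivial overlaps have
squared modulus within a relative error `4 (p+1)^(-1/4) + 3 (p+1)^(-1/2)` of `1 / (p+1)`, from both
sides, the overlaps with the powers of `Z` being exactly right.
-/

set_option autoImplicit false

namespace Pool.Agent.Results.MP_1c78a5_mp.PrimeDimensions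

open Pool.Agent.Q142.SIC (displace overlap)

theorem result : ∀ (p : ℕ) [Fact p.Prime], 5 ≤ p →
    ∃ ψ : ZMod p → ℂ, ∑ j, ‖ψ j‖ ^ 2 = 1 ∧
      (∀ b : ZMod p, b ≠ 0 → ‖overlap ψ 0 b‖ ^ 2 = 1 / ((p : ℝ) + 1)) ∧
      ∀ a b : ZMod p, (a, b) ≠ (0, 0) →
        |((p : ℝ) + 1) * ‖overlap ψ a b‖ ^ 2 - 1|
          ≤ 4 * ((p : ℝ) + 1) ^ (-(1 / 4) : ℝ) + 3 * ((p : ℝ) + 1) ^ (-(1 / 2) : ℝ) := by
  intro p hp h5
  exact Pool.Agent.Q142.SIC.exists_approx p h5

end Pool.Agent.Results.MP_1c78a5_mp.PrimeDimensions
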