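import Pool.Agent.Q142.SIC.Torus

/-!
# MP_1c78a5_mp: approximate Weyl-Heisenberg SIC fiducials in the dimensions `q - 1`

For every `d ≥ 2` such that `d + 1` is a prime power there is a unit vector in `ℂ^d` all of whose
nontrivial overlaps have squared modulus within a relative error `8 d^(-1/4) + 102 d^(-1/2)` of
`1 / (d+1)`, from both sides.
-/

set_option autoImplicit false

namespace Pool.Agent.Results.MP_1c78a5_mp.PrimePowerMinusOne

open Pool.Agent.Q142.SIC (displace overlap)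

theorem result : ∀ (d : ℕ) [NeZero d], 2 ≤ d → IsPrimePow (d + 1) →
    ∃ ψ : ZMod d → ℂ, ∑ j, ‖ψ j‖ ^ 2 = 1 ∧
      ∀ a b : ZMod d, (a, b) ≠ (0, 0) →
        |((d : ℝ) + 1) * ‖overlap ψ a b‖ ^ 2 - 1|
          ≤ 8 * (d : ℝ) ^ (-(1 / 4) : ℝ) + 102 * (d : ℝ) ^ (-(1 / 2) : ℝ) := by
  intro d _ hd hq
  exact Pool.Agent.Q142.SIC.exists_approx_torus d hd hq

end Pool.Agent.Results.MP_1c78a5_mp.PrimePowerMinusOne
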